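import Pool.Agent.helper62.EN.SpecA

set_option autoImplicit false

open scoped Topology
open MeasureTheory Filter Set

namespace Pool.Agent.EN

theorem HSB_proof (h1 : SBA_stmt) : HSB_stmt := by
  classical
  intro X _ μ T p P a b hμ hT hP
  -- the cylinder sets
  have hit : ∀ n : ℕ, Measurable (T^[n]) := fun n => hT.iterate n
  let Ca : (Fin a → Fin p) → Set X := fun u => {x | ∀ i : Fin a, P (T^[i] x) = u i}
  let Cb : (Fin b → Fin p) → Set X := fun v => {x | ∀ i : Fin b, P (T^[i] x) = v i}
  have hmeas : ∀ (n : ℕ) (w : Fin n → Fin p), MeasurableSet {x | ∀ i : Fin n, P (T^[i] x) = w i} := by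
    intro n w
    rw [Set.ofPred_forall]
    refine MeasurableSet.iInter fun i => ?_
    exact (hP.comp (hit i)) (measurableSet_singleton (w i))
  let q : (Fin a → Fin p) → (Fin b → Fin p) → ℝ := fun u v => μ.real (Ca u ∩ (T^[a]) ⁻¹' (Cb v))
  have hq0 : ∀ u v, 0 ≤ q u v := fun u v => measureReal_nonneg
  have hCa : ∀ u, MeasurableSet (Ca u) := fun u => hmeas a u
  have hCb : ∀ v, MeasurableSet (Cb v) := fun v => hmeas b v
  have hdisj : ∀ (n : ℕ), Pairwise (Function.onFun Disjoint (fun w : Fin n → Fin p => {x : X | ∀ i : Fin n, P (T^[i] x) = w i})) := by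
    intro n w w' hw
    rw [Function.onFun, Set.disjoint_left]
    intro x hx hx'
    exact hw (funext fun i => (hx i).symm.trans (hx' i))
  have hcov : ∀ (n : ℕ), (⋃ w : Fin n → Fin p, {x : X | ∀ i : Fin n, P (T^[i] x) = w i}) = Set.univ := by
    intro n
    refine Set.eq_univ_of_forall fun x => Set.mem_iUnion.2 ⟨fun i => P (T^[i] x), fun i => rfl⟩
  have hsumv : ∀ u, ∑ v, q u v = μ.real (Ca u) := by
    intro u
    have h2 : (⋃ v : Fin b → Fin p, (Ca u ∩ (T^[a]) ⁻¹' (Cb v))) = Ca u := by
      rw [← Set.inter_iUnion, ← Set.preimage_iUnion, hcov b, Set.preimage_univ, Set.inter_univ]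
    conv_rhs => rw [← h2]
    rw [measureReal_iUnion_fintype]
    · intro v v' hv
      have h3 := hdisj b hv
      rw [Function.onFun] at h3 ⊢
      exact (h3.preimage _).mono Set.inter_subset_right Set.inter_subset_right
    · intro v
      exact (hCa u).inter ((hit a) (hCb v))
  have hsumu : ∀ v, ∑ u, q u v = (μ.map (T^[a])).real (Cb v) := by
    intro v
    rw [measureReal_def, Measure.map_apply (hit a) (hCb v), ← measureReal_def]
    have h2 : (⋃ u : Fin a → Fin p, (Ca u ∩ (T^[a]) ⁻¹' (Cb v))) = (T^[a]) ⁻¹' (Cb v) := by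
      rw [← Set.iUnion_inter, hcov a, Set.univ_inter]
    conv_rhs => rw [← h2]
    rw [measureReal_iUnion_fintype]
    · intro u u' hu
      have h3 := hdisj a hu
      rw [Function.onFun] at h3 ⊢
      exact h3.mono Set.inter_subset_left Set.inter_subset_left
    · intro u
      exact (hCa u).inter ((hit a) (hCb v))
  have hsum1 : ∑ u, ∑ v, q u v = 1 := by
    simp_rw [hsumv]
    rw [← measureReal_iUnion_fintype (hdisj a) (fun u => hCa u), hcov a]
    simp
  have key := h1 _ _ q hq0 hsum1
  have hL : Hn μ T P (a + b) = ∑ u, ∑ v, Real.negMulLog (q u v) := by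
    unfold Hn
    rw [← (Fin.appendEquiv a b).sum_comp, Fintype.sum_prod_type]
    refine Finset.sum_congr rfl fun u _ => Finset.sum_congr rfl fun v _ => ?_
    congr 2
    ext x
    simp only [Ca, Cb, Set.mem_ofPred_eq, Set.mem_inter_iff, Set.mem_preimage]
    constructor
    · intro h
      constructor
      · intro i
        have := h (Fin.castAdd b i)
        simpa [Fin.appendEquiv] using this
      · intro i
        have := h (Fin.natAdd a i)
        rw [← Function.iterate_add_apply, add_comm]
        simpa [Fin.appendEquiv] using this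
    · rintro ⟨h2, h3⟩ i
      refine Fin.addCases (fun i => ?_) (fun i => ?_) i
      · simpa [Fin.appendEquiv] using h2 i
      · have := h3 i
        rw [← Function.iterate_add_apply, add_comm] at this
        simpa [Fin.appendEquiv] using this
  rw [hL]
  refine key.trans (le_of_eq ?_)
  unfold Hn
  congr 1
  · exact Finset.sum_congr rfl fun u _ => by rw [hsumv u]
  · exact Finset.sum_congr rfl fun v _ => by rw [hsumu v]

end Pool.Agent.EN
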