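import Pool.Agent.helper80.EN.Spec

set_option autoImplicit false

namespace Pool.Agent.helper80.EN

open Subgroup

universe u

/-- The intersection of the kernels of all homomorphisms to `GL_n` over finite fields. -/
def linKer (n : ℕ) (B : Type u) [Group B] : Subgroup B where
  carrier := {b | ∀ (k : Type u) (_ : Field k) (_ : Finite k) (ρ : B →* GL (Fin n) k), ρ b = 1}
  mul_mem' := by
    intro a b ha hb k hk hf ρ
    rw [map_mul, ha k hk hf ρ, hb k hk hf ρ, one_mul]
  one_mem' := by
    intro k hk hf ρ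
    exact map_one ρ
  inv_mem' := by
    intro a ha k hk hf ρ
    rw [map_inv, ha k hk hf ρ, inv_one]

theorem mem_linKer {n : ℕ} {B : Type u} [Group B] (b : B) : b ∈ linKer n B ↔
    ∀ (k : Type u) (_ : Field k) (_ : Finite k) (ρ : B →* GL (Fin n) k), ρ b = 1 := Iff.rfl

theorem linKer_char (n : ℕ) (B : Type u) [Group B] : (linKer n B).Characteristic := by
  rw [Subgroup.characteristic_iff_le_comap]
  intro φ b hb
  rw [Subgroup.mem_comap, mem_linKer]
  intro k hk hf ρ
  exact hb k hk hf (ρ.comp φ.toMonoidHom)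

theorem linKer_quot (n : ℕ) (B : Type u) [Group B] [(linKer n B).Normal] :
    ResLin n (B ⧸ linKer n B) := by
  intro q hq
  obtain ⟨b, rfl⟩ := QuotientGroup.mk'_surjective (linKer n B) q
  have hb : b ∉ linKer n B := by
    intro h
    exact hq ((QuotientGroup.eq_one_iff b).2 h)
  rw [mem_linKer] at hb
  push Not at hb
  obtain ⟨k, hk, hf, ρ, hρ⟩ := hb
  have hle : linKer n B ≤ ρ.ker := fun x hx => hx k hk hf ρ
  exact ⟨k, hk, hf, QuotientGroup.lift (linKer n B) ρ hle, by
    rw [QuotientGroup.mk'_apply, QuotientGroup.lift_mk]; exact hρ⟩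

theorem LIN (hFGL : FGL_stmt.{u}) (hLBE : LBE_stmt.{u}) (hLOC : LOC_stmt.{u})
    (hGIS : GIS_stmt.{u}) (hPEX : PEX_stmt.{u}) : LIN_stmt.{u} := by
  intro F _ n H _ g hg K _ f hgood B hB
  haveI hch : (linKer n B).Characteristic := linKer_char n B
  haveI hno : (linKer n B).Normal := inferInstance
  -- `linKer` is in the kernel of `f`
  have hker : ∀ b ∈ linKer n B, f (b : K) = 1 := by
    intro b hb
    by_contra hne
    have hFG : (B.map (g.comp f)).FG := by
      obtain ⟨S, hS⟩ := hB
      classical
      refine ⟨S.image (g.comp f), ?_⟩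
      rw [Finset.coe_image, ← MonoidHom.map_closure, hS]
    have hres := hFGL F n (B.map (g.comp f)) hFG
    have hmem : (g.comp f) (b : K) ∈ B.map (g.comp f) := Subgroup.mem_map_of_mem _ b.2
    have hne1 : (⟨(g.comp f) (b : K), hmem⟩ : B.map (g.comp f)) ≠ 1 := by
      intro h
      have h1 : (g.comp f) (b : K) = 1 := congrArg Subtype.val h
      rw [MonoidHom.comp_apply] at h1
      exact hne (hg (by rw [h1, map_one]))
    obtain ⟨k, hk, hf, ρ, hρ⟩ := hres _ hne1
    apply hρ
    have h2 := hb k hk hf (ρ.comp ((g.comp f).subgroupMap B))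
    exact h2
  -- `P` of `linKer`
  have hM : P (linKer n B) := by
    apply hLOC
    let j : linKer n B →* f.ker :=
      { toFun := fun x => ⟨((x : B) : K), hker x x.2⟩
        map_one' := rfl
        map_mul' := fun _ _ => rfl }
    refine hGIS.1 (linKer n B) f.ker j ?_ hgood
    intro x y hxy
    have h1 : ((x : B) : K) = ((y : B) : K) := congrArg (fun z : f.ker => (z : K)) hxy
    exact Subtype.ext (Subtype.ext h1)
  have hQ : P (B ⧸ linKer n B) := by
    apply hLBE _ n _ (linKer_quot n B)
    haveI : Group.FG B := (Group.fg_iff_subgroup_fg B).2 hB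
    exact QuotientGroup.fg (linKer n B)
  exact hPEX B (linKer n B) hM hQ

end Pool.Agent.helper80.EN
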